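import Pool.Agent.Y386.IR.Stm3

/-! Part THR: thresholds and powers of `4/5`. -/

set_option autoImplicit false

namespace Pool.Agent.Y774.IR

open Pool.Agent.Y386.IR

theorem t_THR : S_THR := by
  intro P hP t ht hPt
  have hlim : Filter.Tendsto (fun n : ℕ => ((4 : ℝ) / 5) ^ n * t) Filter.atTop (nhds (0 * t)) :=
    (tendsto_pow_atTop_nhds_zero_of_lt_one (by norm_num) (by norm_num)).mul_const t
  rw [zero_mul] at hlim
  have hex : ∃ n : ℕ, ((4 : ℝ) / 5) ^ n * t ≤ 5 / 4 := by
    have h := hlim.eventually (gt_mem_nhds (show (0 : ℝ) < 5 / 4 by norm_num))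
    obtain ⟨n, hn⟩ := h.exists
    exact ⟨n, hn.le⟩
  have hall : ∀ n : ℕ, P (((4 : ℝ) / 5) ^ n * t) := by
    intro n
    induction n with
    | zero => simpa using hPt
    | succ n ih =>
      have h := hP _ ih
      rwa [← mul_assoc, ← pow_succ'] at h
  classical
  have hspec := Nat.find_spec hex
  rcases Nat.eq_zero_or_pos (Nat.find hex) with h0 | h0
  · rw [h0] at hspec
    exact ⟨t, ht, by simpa using hspec, hPt⟩
  · have hmin := Nat.find_min hex (Nat.sub_lt h0 Nat.one_pos)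
    push Not at hmin
    refine ⟨((4 : ℝ) / 5) ^ (Nat.find hex) * t, ?_, hspec, hall _⟩
    have h1 : ((4 : ℝ) / 5) ^ (Nat.find hex) * t = 4 / 5 * (((4 : ℝ) / 5) ^ (Nat.find hex - 1) * t) := by
      rw [← mul_assoc, ← pow_succ', Nat.sub_add_cancel h0]
    rw [h1]
    linarith

end Pool.Agent.Y774.IR
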